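import Mathlib

namespace Pool.Agent.Results.MP_2b20db_nt.Full

/-- differences of complementary divisors of `n` -/
def Dstar (n : ℕ) : Set ℤ := {d | ∃ a b : ℕ, a * b = n ∧ d = |(a : ℤ) - b|}

/-- sums of two nonzero elements of `Dstar n` -/
def Dplus (n : ℕ) : Set ℤ := {s | ∃ x ∈ Dstar n, ∃ y ∈ Dstar n, x ≠ 0 ∧ y ≠ 0 ∧ s = x + y}

/-- the positive integer `n` has the `Δ` property -/
def HasDelta (n : ℕ) : Prop := 1 ≤ n ∧ (Dstar n ∩ Dplus n).Nonempty

/-- `n` is `Δ`-primitive -/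
def DeltaPrimitive (n : ℕ) : Prop :=
  HasDelta n ∧ ¬ ∃ α m : ℕ, 2 ≤ α ∧ 2 ≤ m ∧ n = α ^ 2 * m ∧ HasDelta m

/-! ### a family of squares with the `Δ` property -/

theorem family (p q : ℕ) (hp : 0 < p) (hq : 0 < q) (hpq : q < p) (hpq2 : p < 2 * q) :
    ∃ A B C D : ℕ, (A : ℤ) = p ^ 3 + p ^ 2 * q + 3 * p * q ^ 2 - q ^ 3 ∧
      (B : ℤ) = p ^ 3 + 3 * p ^ 2 * q - p * q ^ 2 + q ^ 3 ∧
      (C : ℤ) = -p ^ 3 + 3 * p ^ 2 * q + p * q ^ 2 + q ^ 3 ∧
      (D : ℤ) = p ^ 3 - p ^ 2 * q + 3 * p * q ^ 2 + q ^ 3 ∧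
      0 < A ∧ 0 < B ∧ 0 < C ∧ 0 < D ∧
      HasDelta ((p * q * A * B * C * D) ^ 2) := by
  have hp' : (0 : ℤ) < p := by exact_mod_cast hp
  have hq' : (0 : ℤ) < q := by exact_mod_cast hq
  have h1 : (q : ℤ) < p := by exact_mod_cast hpq
  have h2 : (p : ℤ) < 2 * q := by exact_mod_cast hpq2
  obtain ⟨x, hx⟩ : ∃ x : ℤ, (p : ℤ) = q + x := ⟨p - q, by ring⟩
  obtain ⟨y, hy⟩ : ∃ y : ℤ, (2 * q : ℤ) = p + y := ⟨2 * q - p, by ring⟩
  have hx0 : 0 < x := by linarith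
  have hy0 : 0 < y := by linarith
  have hA : (0 : ℤ) < p ^ 3 + p ^ 2 * q + 3 * p * q ^ 2 - q ^ 3 := by
    have : (p : ℤ) ^ 3 + p ^ 2 * q + 3 * p * q ^ 2 - q ^ 3 =
        4 * q ^ 3 + 8 * q ^ 2 * x + 4 * q * x ^ 2 + x ^ 3 := by rw [hx]; ring
    rw [this]; positivity
  have hB : (0 : ℤ) < p ^ 3 + 3 * p ^ 2 * q - p * q ^ 2 + q ^ 3 := by
    have : (p : ℤ) ^ 3 + 3 * p ^ 2 * q - p * q ^ 2 + q ^ 3 =
        4 * q ^ 3 + 8 * q ^ 2 * x + 6 * q * x ^ 2 + x ^ 3 := by rw [hx]; ring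
    rw [this]; positivity
  have hC : (0 : ℤ) < -p ^ 3 + 3 * p ^ 2 * q + p * q ^ 2 + q ^ 3 := by
    have : -(p : ℤ) ^ 3 + 3 * p ^ 2 * q + p * q ^ 2 + q ^ 3 =
        p ^ 2 * (3 * q - p) + p * q ^ 2 + q ^ 3 := by ring
    rw [this]
    have : (0 : ℤ) < 3 * q - p := by linarith
    positivity
  have hD : (0 : ℤ) < p ^ 3 - p ^ 2 * q + 3 * p * q ^ 2 + q ^ 3 := by
    have : (p : ℤ) ^ 3 - p ^ 2 * q + 3 * p * q ^ 2 + q ^ 3 =
        p ^ 2 * (p - q) + 3 * p * q ^ 2 + q ^ 3 := by ring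
    rw [this]
    have : (0 : ℤ) < p - q := by linarith
    positivity
  obtain ⟨A, hA1⟩ := Int.eq_ofNat_of_zero_le hA.le
  obtain ⟨B, hB1⟩ := Int.eq_ofNat_of_zero_le hB.le
  obtain ⟨C, hC1⟩ := Int.eq_ofNat_of_zero_le hC.le
  obtain ⟨D, hD1⟩ := Int.eq_ofNat_of_zero_le hD.le
  have hA0 : (0 : ℤ) < A := by rw [← hA1]; exact hA
  have hB0 : (0 : ℤ) < B := by rw [← hB1]; exact hB
  have hC0 : (0 : ℤ) < C := by rw [← hC1]; exact hC
  have hD0 : (0 : ℤ) < D := by rw [← hD1]; exact hD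
  have hA2 : 0 < A := by exact_mod_cast hA0
  have hB2 : 0 < B := by exact_mod_cast hB0
  have hC2 : 0 < C := by exact_mod_cast hC0
  have hD2 : 0 < D := by exact_mod_cast hD0
  refine ⟨A, B, C, D, hA1.symm, hB1.symm, hC1.symm, hD1.symm, hA2, hB2, hC2, hD2, ?_⟩
  -- comparison of the factors
  have cAC : (C : ℤ) < A := by
    rw [← hA1, ← hC1]
    have : (p : ℤ) ^ 3 + p ^ 2 * q + 3 * p * q ^ 2 - q ^ 3 -
        (-p ^ 3 + 3 * p ^ 2 * q + p * q ^ 2 + q ^ 3) = 2 * (p - q) * (p ^ 2 + q ^ 2) := by ring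
    have h3 : (0 : ℤ) < 2 * (p - q) * (p ^ 2 + q ^ 2) :=
      mul_pos (mul_pos (by norm_num) (sub_pos.mpr h1)) (by positivity)
    linarith
  have cDB : (D : ℤ) ≤ B := by
    rw [← hB1, ← hD1]
    have : (p : ℤ) ^ 3 + 3 * p ^ 2 * q - p * q ^ 2 + q ^ 3 -
        (p ^ 3 - p ^ 2 * q + 3 * p * q ^ 2 + q ^ 3) = 4 * p * q * (p - q) := by ring
    have h3 : (0 : ℤ) ≤ 4 * p * q * (p - q) :=
      mul_nonneg (by positivity) (sub_pos.mpr h1).le
    linarith
  have cqp : (q : ℤ) * (C * B) < p * (A * D) := by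
    rw [← hA1, ← hB1, ← hC1, ← hD1]
    have h3 : (p : ℤ) * ((p ^ 3 + p ^ 2 * q + 3 * p * q ^ 2 - q ^ 3) *
        (p ^ 3 - p ^ 2 * q + 3 * p * q ^ 2 + q ^ 3)) -
        q * ((-p ^ 3 + 3 * p ^ 2 * q + p * q ^ 2 + q ^ 3) *
        (p ^ 3 + 3 * p ^ 2 * q - p * q ^ 2 + q ^ 3)) =
        x ^ 7 + 8 * x ^ 6 * q + 32 * x ^ 5 * q ^ 2 + 64 * x ^ 4 * q ^ 3 + 72 * x ^ 3 * q ^ 4 +
          48 * x ^ 2 * q ^ 5 + 16 * x * q ^ 6 := by
      rw [hx]; ring
    have h4 : 0 < x ^ 7 + 8 * x ^ 6 * q + 32 * x ^ 5 * q ^ 2 + 64 * x ^ 4 * q ^ 3 +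
        72 * x ^ 3 * q ^ 4 + 48 * x ^ 2 * q ^ 5 + 16 * x * q ^ 6 := by positivity
    linarith
  have e1 : ((p * q * A ^ 2 * B ^ 2 : ℕ) : ℤ) - ((p * q * C ^ 2 * D ^ 2 : ℕ) : ℤ) =
      (((p * A * D) ^ 2 : ℕ) - ((q * C * B) ^ 2 : ℕ)) +
      ((p ^ 2 * A * B * C * D : ℕ) - (q ^ 2 * A * B * C * D : ℕ)) := by
    push_cast
    rw [← hA1, ← hB1, ← hC1, ← hD1]
    ring
  have pos2 : (0 : ℤ) < ((p * A * D) ^ 2 : ℕ) - ((q * C * B) ^ 2 : ℕ) := by
    push_cast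
    have h3 : (0 : ℤ) < p * A * D - q * C * B := by
      have e2 : (p : ℤ) * A * D - q * C * B = p * (A * D) - q * (C * B) := by ring
      rw [e2]
      exact sub_pos.mpr cqp
    have h5 : ((p : ℤ) * A * D) ^ 2 - (q * C * B) ^ 2 =
        (p * A * D - q * C * B) * (p * A * D + q * C * B) := by ring
    rw [h5]
    exact mul_pos h3 (by positivity)
  have pos3 : (0 : ℤ) < (p ^ 2 * A * B * C * D : ℕ) - (q ^ 2 * A * B * C * D : ℕ) := by
    push_cast
    have h6 : (p : ℤ) ^ 2 * A * B * C * D - q ^ 2 * A * B * C * D =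
        (p - q) * (p + q) * (A * B * C * D) := by ring
    rw [h6]
    exact mul_pos (mul_pos (sub_pos.mpr h1) (by positivity)) (by positivity)
  refine ⟨Nat.one_le_iff_ne_zero.mpr (by positivity),
    ((p * q * A ^ 2 * B ^ 2 : ℕ) : ℤ) - ((p * q * C ^ 2 * D ^ 2 : ℕ) : ℤ), ?_, ?_⟩
  · refine ⟨p * q * A ^ 2 * B ^ 2, p * q * C ^ 2 * D ^ 2, by ring, ?_⟩
    rw [abs_of_pos]
    rw [e1]
    linarith
  · refine ⟨((p * A * D) ^ 2 : ℕ) - ((q * C * B) ^ 2 : ℕ), ⟨(p * A * D) ^ 2, (q * C * B) ^ 2,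
      by ring, by rw [abs_of_pos pos2]⟩, (p ^ 2 * A * B * C * D : ℕ) - (q ^ 2 * A * B * C * D : ℕ),
      ⟨p ^ 2 * A * B * C * D, q ^ 2 * A * B * C * D, by ring, by rw [abs_of_pos pos3]⟩,
      pos2.ne', pos3.ne', e1⟩

theorem not_HasDelta_four : ¬ HasDelta (2 ^ 2) := by
  rintro ⟨-, d, hd, hs⟩
  have key : ∀ d ∈ Dstar (2 ^ 2), d = 0 ∨ d = 3 := by
    rintro d ⟨a, b, hab, rfl⟩
    have ha : a ∣ 4 := ⟨b, by rw [hab]; norm_num⟩
    have ha4 : a ≤ 4 := Nat.le_of_dvd (by norm_num) ha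
    have hab' : a * b = 4 := by rw [hab]; norm_num
    interval_cases a
    · omega
    · have : b = 4 := by omega
      subst this; right; norm_num
    · have : b = 2 := by omega
      subst this; left; norm_num
    · omega
    · have : b = 1 := by omega
      subst this; right; norm_num
  obtain ⟨x, hx, y, hy, hx0, hy0, hxy⟩ := hs
  rcases key d hd with h | h <;> rcases key x hx with h2 | h2 <;> rcases key y hy with h3 | h3 <;>
    first
    | exact hx0 h2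
    | exact hy0 h3
    | (rw [h, h2, h3] at hxy; norm_num at hxy)

/-- a member of the family without small odd prime factors -/
theorem exists_k (N : ℕ) : ∃ k : ℕ, 0 < k ∧ HasDelta (k ^ 2) ∧ k % 4 = 2 ∧
    ∀ r : ℕ, r.Prime → r ≠ 2 → r ≤ N → ¬ r ∣ k := by
  obtain ⟨R, hRodd, hR0, hR⟩ : ∃ R : ℕ, R % 2 = 1 ∧ 0 < R ∧ ∀ r : ℕ, r.Prime → r ≠ 2 → r ≤ N →
      r ∣ R := by
    refine ⟨∏ i ∈ Finset.range N, (2 * i + 1), ?_, ?_, ?_⟩
    · induction N with
      | zero => rfl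
      | succ N ih => rw [Finset.prod_range_succ, Nat.mul_mod, ih]; omega
    · exact Finset.prod_pos fun i _ => by omega
    · intro r hr hr2 hrN
      have hodd := hr.eq_two_or_odd.resolve_left hr2
      have : r = 2 * (r / 2) + 1 := by omega
      rw [this]
      exact Finset.dvd_prod_of_mem (fun i => 2 * i + 1) (Finset.mem_range.mpr (by omega))
  set M : ℕ := R ^ 2 with hM
  have hM0 : 0 < M := by positivity
  have hM4 : M % 4 = 1 := by
    rw [hM, pow_two, Nat.mul_mod]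
    have : R % 4 = 1 ∨ R % 4 = 3 := by omega
    rcases this with h | h <;> rw [h]
  obtain ⟨A, B, C, D, hA, hB, hC, hD, hA0, hB0, hC0, hD0, hdel⟩ :=
    family (2 * M + 1) (M + 1) (by omega) (by omega) (by omega) (by omega)
  refine ⟨(2 * M + 1) * (M + 1) * A * B * C * D, by positivity, hdel, ?_, ?_⟩
  · -- parity
    obtain ⟨t, ht⟩ : ∃ t : ℕ, M = 4 * t + 1 := ⟨M / 4, by omega⟩
    have oA : A % 2 = 1 := by
      have h2 : (A : ℤ) % 2 = 1 := by
        rw [hA, ht]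
        push_cast
        ring_nf
        omega
      omega
    have oB : B % 2 = 1 := by
      have h2 : (B : ℤ) % 2 = 1 := by
        rw [hB, ht]
        push_cast
        ring_nf
        omega
      omega
    have oC : C % 2 = 1 := by
      have h2 : (C : ℤ) % 2 = 1 := by
        rw [hC, ht]
        push_cast
        ring_nf
        omega
      omega
    have oD : D % 2 = 1 := by
      have h2 : (D : ℤ) % 2 = 1 := by
        rw [hD, ht]
        push_cast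
        ring_nf
        omega
      omega
    obtain ⟨a, rfl⟩ : ∃ a, A = 2 * a + 1 := ⟨A / 2, by omega⟩
    obtain ⟨b, rfl⟩ : ∃ b, B = 2 * b + 1 := ⟨B / 2, by omega⟩
    obtain ⟨c, rfl⟩ : ∃ c, C = 2 * c + 1 := ⟨C / 2, by omega⟩
    obtain ⟨d, rfl⟩ : ∃ d, D = 2 * d + 1 := ⟨D / 2, by omega⟩
    rw [ht]
    have e : (2 * (4 * t + 1) + 1) * (4 * t + 1 + 1) * (2 * a + 1) * (2 * b + 1) * (2 * c + 1) *
        (2 * d + 1) = 2 * ((8 * t + 3) * (2 * t + 1) * (2 * a + 1) * (2 * b + 1) * (2 * c + 1) *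
        (2 * d + 1)) := by ring
    have o : ((8 * t + 3) * (2 * t + 1) * (2 * a + 1) * (2 * b + 1) * (2 * c + 1) *
        (2 * d + 1)) % 2 = 1 := by
      simp only [Nat.mul_mod, Nat.add_mod, Nat.mod_mod, Nat.mod_self, Nat.zero_mod, zero_mul,
        Nat.zero_add]
      norm_num
    rw [e]
    omega
  · intro r hr hr2 hrN hdvd
    have hrM : r ∣ M := by rw [hM]; exact dvd_pow (hR r hr hr2 hrN) (by norm_num)
    have : Fact r.Prime := ⟨hr⟩
    have hM' : ((M : ℕ) : ZMod r) = 0 := (ZMod.natCast_eq_zero_iff M r).mpr hrM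
    have hk : (((2 * M + 1) * (M + 1) * A * B * C * D : ℕ) : ZMod r) = 0 :=
      (ZMod.natCast_eq_zero_iff _ r).mpr hdvd
    have cast : ∀ (z : ℕ) (w : ℤ), (z : ℤ) = w → ((z : ℕ) : ZMod r) = ((w : ℤ) : ZMod r) := by
      intro z w h
      rw [← h]
      push_cast
      rfl
    have zA := cast _ _ hA
    have zB := cast _ _ hB
    have zC := cast _ _ hC
    have zD := cast _ _ hD
    push_cast at zA zB zC zD hk
    rw [hM'] at zA zB zC zD hk
    rw [zA, zB, zC, zD] at hk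
    have h256 : ((2 ^ 8 : ℕ) : ZMod r) = 0 := by
      push_cast
      linear_combination hk
    rw [ZMod.natCast_eq_zero_iff] at h256
    have := hr.dvd_of_dvd_pow h256
    exact hr2 ((Nat.prime_dvd_prime_iff_eq hr Nat.prime_two).mp this)

/-- There are infinitely many `Δ`-primitive squares. -/
theorem result : {n : ℕ | (∃ k : ℕ, n = k ^ 2) ∧ DeltaPrimitive n}.Infinite := by
  rw [Set.infinite_iff_exists_gt]
  intro N
  obtain ⟨k, hk0, hkd, hk4, hkr⟩ := exists_k N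
  classical
  have hex : ∃ j : ℕ, j ∣ k ∧ 2 ≤ j ∧ HasDelta (j ^ 2) := ⟨k, dvd_refl k, by omega, hkd⟩
  obtain ⟨hj1, hj2, hj3⟩ := Nat.find_spec hex
  set j := Nat.find hex with hj
  refine ⟨j ^ 2, ⟨⟨j, rfl⟩, hj3, ?_⟩, ?_⟩
  · rintro ⟨α, m, hα, hm, he, hmd⟩
    have h1 : α ∣ j := by
      rw [← Nat.pow_dvd_pow_iff (n := 2) (by norm_num)]
      exact ⟨m, he⟩
    obtain ⟨i, hi⟩ := h1
    have hα0 : 0 < α := by omega
    have hmi : m = i ^ 2 := by
      rw [hi, mul_pow] at he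
      exact (Nat.eq_of_mul_eq_mul_left (by positivity) he).symm
    have hi2 : 2 ≤ i := by
      by_contra h
      have : i = 0 ∨ i = 1 := by omega
      rcases this with h | h
      · rw [h] at hmi; simp at hmi; omega
      · rw [h] at hmi; simp at hmi; omega
    have hlt : i < j := by
      rw [hi]
      nlinarith
    apply Nat.find_min hex (hj ▸ hlt)
    exact ⟨dvd_trans ⟨α, by rw [hi]; ring⟩ hj1, hi2, hmi ▸ hmd⟩
  · -- `j > N`
    by_cases hodd : ∃ r : ℕ, r.Prime ∧ r ≠ 2 ∧ r ∣ j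
    · obtain ⟨r, hr, hr2, hrj⟩ := hodd
      have h1 : ¬ r ≤ N := fun h => hkr r hr hr2 h (dvd_trans hrj hj1)
      have h2 : r ≤ j := Nat.le_of_dvd (by omega) hrj
      nlinarith
    · exfalso
      push Not at hodd
      -- `j` is a power of two
      have h2 : j = 2 ^ j.primeFactorsList.length := by
        apply Nat.eq_prime_pow_of_unique_prime_dvd (by omega)
        intro d hd hdj
        by_contra h
        exact hodd d hd h hdj
      have h3 : j.primeFactorsList.length < 2 := by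
        by_contra h
        have h4 : 2 ^ 2 ∣ k := by
          refine dvd_trans (pow_dvd_pow 2 (not_lt.mp h)) ?_
          rw [← h2]
          exact hj1
        omega
      have h5 : j = 2 := by
        interval_cases h : j.primeFactorsList.length
        · omega
        · rw [h2]; norm_num
      rw [h5] at hj3
      exact not_HasDelta_four hj3

end Pool.Agent.Results.MP_2b20db_nt.Full
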